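import Pool.Agent.Q94.QH.Canon

/-!
# Rational Hodge structures of derived equivalent varieties and Lefschetz properties of `c₁`

The set-up is that of `MP_5c0b30_ag.HodgeStructures`: `RatCoh` is the rational cohomology of a smooth
projective complex variety of dimension `n` with its Hodge structure, and `RatFM` is the map which is
induced by an equivalence of derived categories. An equivalence commutes with the Serre functors
`· ⊗ ω[n]`, so that this map commutes with the multiplication by `c₁`: this is `Canonical`.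

`CInj Z m i` says that `c₁ ^ m : H^i → H^(i+2m)` is injective, and `LefDeg Z k` that all
`c₁ ^ (n - i) : H^i → H^(2n-i)`, `i = k, k - 2, k - 4, …`, are injective (hence bijective).
We show that the rational Hodge structures `H^k` of `Y` and of `Z` are isomorphic if `Y` and `Z` have
this property, that `Z` has this property if `Y` has and the Betti numbers of `Y` and `Z` agree in the
degrees `k, k - 2, …`, and that it suffices to know this in the degrees at most `n - 3` in order to
obtain isomorphisms for all `k`.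
-/

set_option autoImplicit false

namespace Pool.Agent.Results.MP_5c0b30_ag.CanonicalHodgeStructures

open Module Pool.Agent.W539.DI Pool.Agent.Q94.QH

/-- The rational Hodge structures `H^k` are isomorphic. -/
def Iso {n : ℕ} (Y Z : RatCoh n) (k : ℤ) : Prop := HodgeIso Y Z {k}

/-- All `c₁ ^ (n - i) : H^i → H^(2n-i)` with `i ≤ n - 3` are injective. -/
def LefTo {n : ℕ} (Z : RatCoh n) : Prop := LefDeg Z (n - 3) ∧ LefDeg Z (n - 4)

/-- The Betti numbers in the degrees at most `n - 3` agree. -/
def SameBetti {n : ℕ} (Y Z : RatCoh n) : Prop := ∀ i : ℤ, i ≤ n - 3 → betti Y i = betti Z i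

/-- `c₁ ^ n ≠ 0` and `c₁ ^ (n - 2)` is injective on `H^2`. -/
def LefTwo {n : ℕ} (Z : RatCoh n) : Prop := Z.X.c ^ n ≠ 0 ∧ CInj Z (n - 2) 2

theorem lef_of {n : ℕ} {Z : RatCoh n} (hn : 2 ≤ n) (h : LefTwo Z) : LefDeg Z 2 := by
  intro j m hm
  rcases Nat.lt_or_ge j 2 with hj | hj
  · interval_cases j
    · have : m = n - 2 := by push_cast at hm; omega
      subst this
      simp only [Nat.cast_zero, mul_zero, sub_zero]
      exact h.2
    · have : m = n := by push_cast at hm; omega
      subst this
      have e : (2 : ℤ) - 2 * ((1 : ℕ) : ℤ) = 0 := by norm_num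
      rw [e]
      intro a ha h0
      have h1 : (1 : Z.A) ∈ PK Z {0} := by
        rw [mem_PK, map_one]
        exact mem_degC (p := 0) (q := 0) (by simp) Z.X.one_mem
      have h2 : (⟨1, h1⟩ : PK Z {0}) ≠ 0 := by
        intro h'
        have h3 : (1 : Z.A) = 0 := congrArg Subtype.val h'
        apply h.1
        rw [← one_mul (Z.X.c ^ m), ← map_one Z.ι, h3, map_zero, zero_mul]
      obtain ⟨r, hr⟩ := (finrank_eq_one_iff_of_nonzero' (⟨1, h1⟩ : PK Z {0}) h2).1
        (finrank_zero_deg Z) ⟨a, mem_PK.2 ha⟩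
      have hr' : r • (1 : Z.A) = a := congrArg Subtype.val hr
      rw [← hr', ι_smul, map_one, mul_smul_comm, mul_one] at h0
      rcases smul_eq_zero.1 h0 with h5 | h5
      · have h6 : r = 0 := by exact_mod_cast h5
        rw [← hr', h6, zero_smul]
      · exact absurd h5 h.1
  · intro a ha _
    exact PK_neg (t := 2 - 2 * (j : ℤ)) (by omega) (mem_PK.2 ha)

theorem betti_low {n : ℕ} (Y Z : RatCoh n) {i : ℤ} (hi : i ≤ 0) : betti Y i = betti Z i := by
  rw [betti_eq, betti_eq]
  rcases lt_or_eq_of_le hi with h | rfl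
  · rw [bk_empty, bk_empty]
    · intro k hk
      rw [Set.mem_singleton_iff] at hk
      omega
    · intro k hk
      rw [Set.mem_singleton_iff] at hk
      omega
  · unfold bk
    rw [finrank_zero_deg, finrank_zero_deg]

theorem two_iso {n : ℕ} (hn : 2 ≤ n) {Y Z : RatCoh n} {F : RatFM Y Z} (hF : Canonical F)
    (hY : LefTwo Y) (hb : betti Y 2 = betti Z 2) : Iso Y Z 2 := by
  refine lefDeg_iso hF (by omega) (lef_of hn hY) ((lef_iff hF (by omega) (lef_of hn hY)).2 ?_)
  intro i h1 h2
  by_cases h3 : i = 2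
  · subst h3; exact hb
  · obtain ⟨r, hr⟩ := h2
    exact betti_low Y Z (by omega)

/-- Let `Y`, `Z` be smooth projective complex varieties of dimension `n` with equivalent derived
categories.

1. Let the maps `c₁ ^ (n - i) : H^i → H^(2n-i)`, `i = k, k - 2, k - 4, …`, `k ≤ n`, be injective for
   `Y`. This holds for `Z` if and only if the Betti numbers of `Y` and `Z` agree in these degrees `i`,
   and then the rational Hodge structures `H^k(Y)` and `H^k(Z)` are isomorphic.
2. If the maps with `i = n - 4, n - 6, …` are injective for `Y` and `Z`, then `H^k(Y)` and `H^k(Z)`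
   are isomorphic for all `k` congruent to `n` modulo two.
3. Let the maps with `i ≤ n - 3` be injective for `Y`. The following are equivalent: they are
   injective for `Z`; `H^k(Y)` and `H^k(Z)` are isomorphic for all `k`; the Betti numbers in the
   degrees at most `n - 3` agree.
4. Let `n ≥ 2`, `b_2(Y) = b_2(Z)`, `c₁(Y) ^ n ≠ 0` and let `c₁ ^ (n - 2)` be injective on `H^2(Y)`.
   Then `H^2(Y)` and `H^2(Z)` are isomorphic; if `n = 6`, then all `H^k` with `k` even are isomorphic;
   if `n = 5` and the `H^1` are isomorphic, then all `H^k` are isomorphic. -/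
theorem result :
    (∀ (n : ℕ) (Y Z : RatCoh n) (F : RatFM Y Z), Canonical F →
      (∀ k : ℤ, k ≤ n → LefDeg Y k →
        (LefDeg Z k ↔ ∀ i : ℤ, i ≤ k → Even (i - k) → betti Y i = betti Z i) ∧
        (LefDeg Z k → Iso Y Z k)) ∧
      (LefDeg Y (n - 4) → LefDeg Z (n - 4) → ∀ k : ℤ, Even (k - n) → Iso Y Z k) ∧
      (LefTo Y → (LefTo Z ↔ ∀ k : ℤ, Iso Y Z k) ∧ ((∀ k : ℤ, Iso Y Z k) ↔ SameBetti Y Z)) ∧
      (2 ≤ n → LefTwo Y → betti Y 2 = betti Z 2 → Iso Y Z 2)) ∧
    (∀ (Y Z : RatCoh 6) (F : RatFM Y Z), Canonical F → LefTwo Y → betti Y 2 = betti Z 2 →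
      ∀ k : ℤ, Even k → Iso Y Z k) ∧
    (∀ (Y Z : RatCoh 5) (F : RatFM Y Z), Canonical F → LefTwo Y → betti Y 2 = betti Z 2 →
      Iso Y Z 1 → ∀ k : ℤ, Iso Y Z k) := by
  refine ⟨fun n Y Z F hF => ⟨fun k hk hY => ⟨lef_iff hF hk hY, fun hZ => lefDeg_iso hF hk hY hZ⟩,
    fun hY hZ => canon_par hF hY hZ, fun hY => ?_, fun hn hY hb => two_iso hn hF hY hb⟩, ?_, ?_⟩
  · have h1 : LefTo Z → ∀ k : ℤ, Iso Y Z k := fun hZ => canon_all hF hY.2 hZ.2 hY.1 hZ.1
    have h2 : (∀ k : ℤ, Iso Y Z k) → SameBetti Y Z := fun h i _ => by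
      rw [betti_eq, betti_eq]
      exact bk_of_iso (h i)
    have h3 : SameBetti Y Z → LefTo Z := fun h =>
      ⟨(lef_iff hF (by omega) hY.1).2 fun i hi _ => h i hi,
        (lef_iff hF (by omega) hY.2).2 fun i hi _ => h i (by omega)⟩
    exact ⟨⟨h1, fun h => h3 (h2 h)⟩, ⟨h2, fun h => h1 (h3 h)⟩⟩
  · intro Y Z F hF hY hb k hk
    refine par_iso F (fun i h0 h2 h3 => ?_) k ?_
    · obtain ⟨r, hr⟩ := h3
      have : i = 2 := by push_cast at h2 hr; omega
      subst this
      exact two_iso (by norm_num) hF hY hb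
    · obtain ⟨r, hr⟩ := hk
      exact ⟨r - 3, by push_cast; omega⟩
  · intro Y Z F hF hY hb h1 k
    refine all_iso F (fun i h0 h2 => ?_) k
    have h3 : i = 1 ∨ i = 2 := by push_cast at h2; omega
    rcases h3 with rfl | rfl
    · exact h1
    · exact two_iso (by norm_num) hF hY hb

end Pool.Agent.Results.MP_5c0b30_ag.CanonicalHodgeStructures
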