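import Pool.Agent.Q94.QH.Small

/-!
# Rational Hodge structures of derived equivalent varieties

If the Chow motives of derived equivalent smooth projective varieties are isomorphic (Orlov's
conjecture), then so are their rational Hodge structures `H^k`. We prove this for all `k` in
dimension three, for all even `k` in dimension four (for all `k` if the `H^1` are isomorphic, which
is a theorem of Popa and Schnell), for `k = n - 2` in dimension `n ≤ 6`, and relations in every
dimension `n`.

The rational cohomology with its Hodge structure is `RatCoh`: the complex cohomology `X` is the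
structure `KRing` of the starting library (a cohomology ring with a Hodge decomposition, a Kähler
class satisfying hard Lefschetz and the Hodge-Riemann relations, and the class `c₁`), and `A` is the
rational cohomology ring. The map on cohomology induced by an equivalence is `RatFM`: it is rational,
preserves `p - q` and the Mukai pairings.

`HodgeIso Y Z K` says that the rational Hodge structures `⊕_{k ∈ K} H^k` of `Y` and `Z` are
isomorphic up to Tate twists. If `K = {k}` then this says that the rational Hodge structures `H^k`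
are isomorphic.
-/

set_option autoImplicit false

namespace Pool.Agent.Results.MP_5c0b30_ag.HodgeStructures

open Module Pool.Agent.W539.DI Pool.Agent.Q94.QH

/-- The rational Hodge structures `H^k` are isomorphic. -/
def Iso {n : ℕ} (Y Z : RatCoh n) (k : ℤ) : Prop := HodgeIso Y Z {k}

/-- The three direct sums. -/
def Sums {n : ℕ} (Y Z : RatCoh n) : Prop :=
  HodgeIso Y Z {k : ℤ | k ≤ (n : ℤ) - 2 ∧ 4 ∣ (n : ℤ) - 2 - k} ∧
  HodgeIso Y Z {k : ℤ | 4 ∣ (n : ℤ) - k} ∧
  HodgeIso Y Z {k : ℤ | k < n ∧ ¬ Even (k - n)}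

/-- The degrees `k ≡ n` modulo two are determined by those with `0 < k ≤ n - 4`. -/
def Parity {n : ℕ} (Y Z : RatCoh n) : Prop :=
  (∀ k : ℤ, 0 < k → k ≤ (n : ℤ) - 4 → Even (k - n) → Iso Y Z k) →
    ∀ k : ℤ, Even (k - n) → Iso Y Z k

/-- All degrees are determined by those with `0 < k ≤ n - 3`. -/
def All {n : ℕ} (Y Z : RatCoh n) : Prop :=
  (∀ k : ℤ, 0 < k → k ≤ (n : ℤ) - 3 → Iso Y Z k) → ∀ k : ℤ, Iso Y Z k

/-- Threefolds. -/
def Three : Prop := ∀ Y Z : RatCoh 3, Nonempty (RatFM Y Z) → ∀ k : ℤ, Iso Y Z k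

/-- Fourfolds. -/
def Four : Prop := ∀ Y Z : RatCoh 4, Nonempty (RatFM Y Z) → (∀ k : ℤ, Even k → Iso Y Z k) ∧
  (Iso Y Z 1 → ∀ k : ℤ, Iso Y Z k)

/-- Fivefolds. -/
def Five : Prop := ∀ Y Z : RatCoh 5, Nonempty (RatFM Y Z) → Iso Y Z 1 → ∀ k : ℤ, Odd k → Iso Y Z k

/-- Sixfolds. -/
def Six : Prop := ∀ Y Z : RatCoh 6, Nonempty (RatFM Y Z) → Iso Y Z 2 → ∀ k : ℤ, Even k → Iso Y Z k

/-- Let `Y`, `Z` be smooth projective complex varieties of dimension `n` with equivalent derived
categories. Up to Tate twists, the following rational Hodge structures of `Y` and `Z` are isomorphic: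

* `H^(n-2) ⊕ H^(n-6) ⊕ H^(n-10) ⊕ …`,
* the sum of all `H^k` with `k ≡ n` modulo `4`,
* `H^(n-1) ⊕ H^(n-3) ⊕ H^(n-5) ⊕ …`,
* every `H^k` with `k ≡ n` modulo `2`, if this holds for the `H^k` with `0 < k ≤ n - 4` and `k ≡ n`
  modulo `2`,
* every `H^k`, if this holds for the `H^k` with `0 < k ≤ n - 3`.

In particular: all `H^k` of threefolds; all `H^k` with `k` even of fourfolds, and all `H^k` of
fourfolds if the `H^1` are isomorphic; all `H^k` with `k` odd of fivefolds if the `H^1` are
isomorphic; all `H^k` with `k` even of sixfolds if the `H^2` are isomorphic; `H^(n-2)` if `n ≤ 6`. -/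
theorem result :
    (∀ (n : ℕ) (Y Z : RatCoh n), Nonempty (RatFM Y Z) → Sums Y Z ∧ Parity Y Z ∧ All Y Z) ∧
    Three ∧ Four ∧ Five ∧ Six ∧
    (∀ n : ℕ, n ≤ 6 → ∀ Y Z : RatCoh n, Nonempty (RatFM Y Z) → Iso Y Z (n - 2)) := by
  refine ⟨?_, ?_, ?_, ?_, ?_, ?_⟩
  · rintro n Y Z ⟨F⟩
    exact ⟨⟨quad_iso F, quadAll_iso F, other_iso F⟩, par_iso F, all_iso F⟩
  · rintro Y Z ⟨F⟩ k
    exact all_iso F (fun k h1 h2 => by push_cast at h2; omega) k
  · rintro Y Z ⟨F⟩
    refine ⟨fun k hk => par_iso F (fun k h1 h2 => by push_cast at h2; omega) k ?_, fun h k => ?_⟩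
    · obtain ⟨r, hr⟩ := hk
      exact ⟨r - 2, by push_cast; omega⟩
    · refine all_iso F (fun k h1 h2 => ?_) k
      have : k = 1 := by push_cast at h2; omega
      subst this
      exact h
  · rintro Y Z ⟨F⟩ h k hk
    refine par_iso F (fun k h1 h2 _ => ?_) k ?_
    · have : k = 1 := by push_cast at h2; omega
      subst this
      exact h
    · obtain ⟨r, hr⟩ := hk
      exact ⟨r - 2, by push_cast; omega⟩
  · rintro Y Z ⟨F⟩ h k hk
    refine par_iso F (fun k h1 h2 h3 => ?_) k ?_
    · obtain ⟨r, hr⟩ := h3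
      have : k = 2 := by push_cast at h2 hr; omega
      subst this
      exact h
    · obtain ⟨r, hr⟩ := hk
      exact ⟨r - 3, by push_cast; omega⟩
  · rintro n hn Y Z ⟨F⟩
    exact mid_iso hn F

end Pool.Agent.Results.MP_5c0b30_ag.HodgeStructures
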