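import Pool.Agent.Q94.OL.Main

/-!
# Orlov's conjecture and canonical classes with the hard Lefschetz property

`C` is a theory with the formal properties of the Chow groups with rational coefficients of smooth
projective varieties (`IsChowProj`), `H` a Weil cohomology theory (`IsWeilProj`). Let `X` and `X'` be
varieties of the same dimension, and let `v ∈ CH(X × X')` and `w ∈ CH(X' × X)` be mixed classes which
are inverse to each other as correspondences (`v = ch(E) √td` and `w = ch(E') √td` for the kernel `E`
of an equivalence of derived categories and the kernel `E'` of its inverse).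

Let `η` and `η'` be divisor classes on `X` and `X'` such that `v` intertwines, in cohomology, the
multiplications by `η` and by `η'`. As equivalences commute with the Serre functors, this holds for
`η = c₁(X)`, `η' = c₁(X')`; if the equivalence is linear over a base `B`, it holds for
`η = c₁(X) + f^* b`, `η' = c₁(X') + f'^* b`. If `η` and `η'` have the hard Lefschetz property then, up
to homological equivalence, `v` has only components of codimension at least `dim X`, and its
component `Z` of codimension `dim X` is an isomorphism of homological motives. If homologically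
trivial self-correspondences of degree zero of `X` and of `X'` are nilpotent (as is the case for
finite-dimensional motives), then `Z` is an isomorphism of Chow motives.

Idea: let `φ` be the action of the lowest nonzero component of `v` on the cohomology, and suppose
that it lowers the degree. It intertwines `η` and `η'`, so it maps a primitive class of degree
`dim X - j` to a class of degree less than `dim X - j` which is killed by `η' ^ (j + 1)`; so `φ`
vanishes on the primitive classes and then on everything.
-/

set_option autoImplicit false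

open CategoryTheory AlgebraicGeometry

universe u v w

namespace Pool.Agent.Results.MP_5c0b30_ag.LefschetzIntertwined

open Pool.Agent.H914 Pool.Agent.H914.VarClass Pool.Agent.H914.VarClass.Obj Pool.Agent.W492.BB
  Pool.Agent.W550.Corr Pool.Agent.TH133 Pool.Agent.Q94.OL

section

variable {k : Type u} [Field k] {𝒱 : VarClass k} {C : TheoryData.{u, v, 0} 𝒱 ℚ} {K : Type w}
  [Field K]

/-- The correspondences `Γ` and `Γ'` have the same cohomology class. -/
def HomEq (H : WeilTheoryData.{u, v, w} C K) {X Y : 𝒱.Obj} (Γ Γ' : C.A (X.prod Y)) : Prop :=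
  H.cl Γ = H.cl Γ'

/-- `Γ` intertwines, in cohomology, the multiplications by `η` and by `η'`. -/
def Intertwines (H : WeilTheoryData.{u, v, w} C K) {X Y : 𝒱.Obj} (η : C.A X) (η' : C.A Y)
    (Γ : C.A (X.prod Y)) : Prop :=
  HomEq H (C.comp (C.mulCorr η) Γ) (C.comp Γ (C.mulCorr η'))

/-- `u` is a sum of classes of codimension greater than `d`. -/
def Above (C : TheoryData.{u, v, 0} 𝒱 ℚ) {X : 𝒱.Obj} (d : ℤ) (u : C.A X) : Prop :=
  u ∈ ⨆ i : {i : ℤ // d + 1 ≤ i}, C.gr X i

/-- `Z` and `Z'` are inverse to each other up to homological equivalence. -/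
def HomInverse (H : WeilTheoryData.{u, v, w} C K) {X Y : 𝒱.Obj} (Z : C.A (X.prod Y))
    (Z' : C.A (Y.prod X)) : Prop :=
  HomEq H (C.comp Z Z') (dg C X) ∧ HomEq H (C.comp Z' Z) (dg C Y)

/-- `Z` is an isomorphism of Chow motives. -/
def IsChowIso (C : TheoryData.{u, v, 0} 𝒱 ℚ) {X Y : 𝒱.Obj} (Z : C.A (X.prod Y)) : Prop :=
  C.Deg X.dim Z ∧ ∃ Z' : C.A (Y.prod X), C.Deg X.dim Z' ∧ C.comp Z Z' = dg C X ∧
    C.comp Z' Z = dg C Y

end

theorem result {k : Type u} [Field k] {𝒱 : VarClass k} (C : TheoryData.{u, v, 0} 𝒱 ℚ)
    [IsChowProj C] {K : Type w} [Field K] (H : WeilTheoryData.{u, v, w} C K) [IsWeilProj H]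
    (X X' : 𝒱.Obj) (hdim : X.dim = X'.dim) (η : C.A X) (η' : C.A X') (hη : C.Deg 1 η)
    (hη' : C.Deg 1 η') (hX : HardLefschetz H X η) (hX' : HardLefschetz H X' η')
    (v : C.A (X.prod X')) (w : C.A (X'.prod X)) (hvw : C.comp v w = dg C X)
    (hwv : C.comp w v = dg C X') (hv : Intertwines H η η' v) :
    ∃ (Z u : C.A (X.prod X')) (Z' : C.A (X'.prod X)), C.Deg X.dim Z ∧ C.Deg X.dim Z' ∧
      Above C X.dim u ∧ HomEq H v (Z + u) ∧ HomInverse H Z Z' ∧ Intertwines H η η' Z ∧
      (HomNilpotent H X → HomNilpotent H X' → IsChowIso C Z) := by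
  obtain ⟨Z, Z', h1, h2, ⟨u, hu, hvu⟩, h3, h4, h5, h6⟩ :=
    main H hdim hη hη' hX hX' hvw hwv hv
  refine ⟨Z, u, Z', h1, h2, hu, ?_, ⟨h3, h4⟩, h5, fun hN hN' => ?_⟩
  · change H.cl v = H.cl (Z + u)
    rw [hvu, map_add]
  · obtain ⟨Z'', k1, k2, k3, -⟩ := h6 hN hN'
    exact ⟨h1, Z'', k1, k2, k3⟩

end Pool.Agent.Results.MP_5c0b30_ag.LefschetzIntertwined
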