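import Pool.Agent.Q69.MR.Main

/-!
# Orlov's conjecture and ranks of groups of cycles

`C` is a rigid symmetric `ℚ`-linear tensor category with direct sums and `End 1 = ℚ`, with a
realisation in super vector spaces over a field (for example Chow motives over a field with rational
coefficients, with a Weil cohomology). For objects `M` and `N` let `numRank M N` be the dimension of
the space of morphisms `M ⟶ N` modulo the numerically trivial ones. For `M = h(X)`, `N = h(X')`, `X`
and `X'` of dimension `d`, it is the rank of the group of cycles of codimension `d` on `X × X'`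
modulo numerical equivalence.

1. `2 numRank M N ≤ numRank M M + numRank N N`, with equality if and only if `M` and `N` are isomorphic
   modulo numerical equivalence.
2. If numerically trivial endomorphisms of `M` and of `N` are nilpotent (for example if the motives
   are finite-dimensional), equality holds if and only if `M` and `N` are isomorphic.
3. If `X` and `X'` are derived equivalent then so are `X × X`, `X × X'` and `X' × X'`, and the sums `s`
   of the ranks `a i`, `c i`, `b i` of their groups of cycles of codimension `i` modulo numerical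
   equivalence, `i = 0, ..., 2d`, are equal. Then `∑ i < d, (a i + b i) ≤ 2 ∑ i < d, c i`, with equality
   if and only if the motives are isomorphic modulo numerical equivalence. So Orlov's conjecture
   becomes a statement on the ranks of the groups of cycles of codimension less than `d` on the
   products.
-/

set_option autoImplicit false

open CategoryTheory Limits MonoidalCategory

universe v u w

namespace Pool.Agent.Results.MP_5c0b30_ag.RanksOfCycles

open Pool.Agent.Y112.SR Pool.Agent.Q259.NCSign Pool.Agent.Q69.MR

/-- `a i`, `i = 0, ..., 2d`, are numbers with middle number `r`, with `a i = a (2d - i)` and with sum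
`s`. -/
structure Ranks (d r s : ℕ) (a : ℕ → ℕ) : Prop where
  mid : a d = r
  symm : ∀ i ≤ 2 * d, a i = a (2 * d - i)
  sum : ∑ i ∈ Finset.range (2 * d + 1), a i = s

theorem Ranks.eq {d r s : ℕ} {a : ℕ → ℕ} (h : Ranks d r s a) :
    s = r + 2 * ∑ i ∈ Finset.range d, a i := by
  have e : 2 * d + 1 = (d + 1) + d := by omega
  have h1 : ∑ i ∈ Finset.range d, a (d + 1 + i) = ∑ i ∈ Finset.range d, a i := by
    rw [← Finset.sum_range_reflect]
    refine Finset.sum_congr rfl fun i hi => ?_
    have hi' := Finset.mem_range.1 hi
    rw [h.symm _ (by omega)]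
    congr 1
    omega
  rw [← h.sum, e, Finset.sum_range_add, Finset.sum_range_succ, h.mid, h1]
  ring

variable {C : Type u} [Category.{v} C] [Preadditive C] [Linear ℚ C] [MonoidalCategory C]
  [SymmetricCategory C] [RightRigidCategory C]

/-- Numerically trivial endomorphisms of `M` are nilpotent. -/
def NumNilpotent (M : C) : Prop := ∀ f : End M, NumTriv (f : M ⟶ M) → IsNilpotent f

theorem result [HasBinaryBiproducts C] {K : Type w} [Field K] (R : SuperRealisation C K)
    (hunit : ∀ c : 𝟙_ C ⟶ 𝟙_ C, ∃ q : ℚ, c = q • 𝟙 (𝟙_ C)) (M N : C) :
    (2 * numRank M N ≤ numRank M M + numRank N N ∧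
      (2 * numRank M N = numRank M M + numRank N N ↔ NumIso M N)) ∧
    (NumNilpotent M → NumNilpotent N →
      (2 * numRank M N = numRank M M + numRank N N ↔ Nonempty (M ≅ N))) ∧
    ∀ (d s : ℕ) (a b c : ℕ → ℕ), Ranks d (numRank M M) s a → Ranks d (numRank N N) s b →
      Ranks d (numRank M N) s c →
      ∑ i ∈ Finset.range d, (a i + b i) ≤ 2 * ∑ i ∈ Finset.range d, c i ∧
      (∑ i ∈ Finset.range d, (a i + b i) = 2 * ∑ i ∈ Finset.range d, c i ↔ NumIso M N) := by
  obtain ⟨h1, h2⟩ := main R hunit M N
  refine ⟨⟨h1, h2⟩, fun hM hN => ?_, fun d s a b c ha hb hc => ?_⟩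
  · rw [h2]
    constructor
    · rintro ⟨α, β, hα, hβ⟩
      exact iso_of_nilp α β (hM _ hα) (hN _ hβ)
    · rintro ⟨e⟩
      refine ⟨e.hom, e.inv, ?_, ?_⟩
      · rw [e.hom_inv_id, sub_self]; exact numTriv_zero R hunit
      · rw [e.inv_hom_id, sub_self]; exact numTriv_zero R hunit
  · have ea := ha.eq
    have eb := hb.eq
    have ec := hc.eq
    rw [Finset.sum_add_distrib, ← h2]
    omega

end Pool.Agent.Results.MP_5c0b30_ag.RanksOfCycles
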